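import Pool.Agent.Helper7.HL.Stmts

/-!
Row AL2 of the project HL: the product of the Vandermonde determinant with a symmetric polynomial, and
the Vandermonde determinant is not a zero divisor.
-/

namespace Pool.Agent.Helper27.HL

open Finset MvPolynomial
open Pool.Agent.Helper7.HL Pool.Agent.Helper32.HG

variable {k : ℕ} {S : Type} [CommRing S]

theorem al2_mapDomain (σ : Equiv.Perm (Fin k)) (γ : Fin k →₀ ℕ) :
    γ.mapDomain (σ⁻¹ : Equiv.Perm (Fin k)) = ex (fun i => γ (σ i)) := by
  ext i
  rw [ex_apply]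
  have : i = (σ⁻¹ : Equiv.Perm (Fin k)) (σ i) := by simp
  conv_lhs => rw [this]
  rw [Finsupp.mapDomain_apply (σ⁻¹ : Equiv.Perm (Fin k)).injective]

theorem al2_expand {f : MvPolynomial (Fin k) S} (hf : f.IsSymmetric) (σ : Equiv.Perm (Fin k)) :
    f = ∑ γ ∈ f.support, monomial (ex (fun i => γ (σ i))) (coeff γ f) := by
  have h1 := hf (σ⁻¹ : Equiv.Perm (Fin k))
  conv_lhs => rw [← h1]
  conv_lhs => rw [f.as_sum, map_sum]
  apply sum_congr rfl
  intro γ _
  rw [rename_monomial, al2_mapDomain]

theorem al2_one {f : MvPolynomial (Fin k) S} (hf : f.IsSymmetric) : Dl k S * f =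
    ∑ γ ∈ f.support, C (coeff γ f) * altp k S (fun i => γ i + dl k i) := by
  unfold Dl altp
  rw [sum_mul]
  have h1 : ∀ σ : Equiv.Perm (Fin k),
      monomial (ex (dl k ∘ σ)) ((Equiv.Perm.sign σ : ℤ) : S) * f =
      ∑ γ ∈ f.support, monomial (ex ((fun i => γ i + dl k i) ∘ σ))
        (coeff γ f * ((Equiv.Perm.sign σ : ℤ) : S)) := by
    intro σ
    conv_lhs => rw [al2_expand hf σ]
    rw [mul_sum]
    apply sum_congr rfl
    intro γ _
    rw [monomial_mul, mul_comm]
    congr 1
    congr 1
    ext i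
    rw [Finsupp.add_apply, ex_apply, ex_apply, ex_apply]
    simp only [Function.comp_apply]
    omega
  simp_rw [h1]
  rw [sum_comm]
  apply sum_congr rfl
  intro γ _
  rw [mul_sum]
  apply sum_congr rfl
  intro σ _
  rw [C_mul_monomial]

theorem al2_dl_inj : Function.Injective (dl k) := by
  intro i j hij
  unfold dl at hij
  ext
  have h1 := i.isLt
  have h2 := j.isLt
  omega

theorem al2_coeff : coeff (ex (dl k)) (Dl k S) = 1 := by
  unfold Dl altp
  rw [coeff_sum, sum_eq_single (1 : Equiv.Perm (Fin k))]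
  · rw [coeff_monomial, if_pos]
    · simp
    · rfl
  · intro σ _ hσ
    rw [coeff_monomial, if_neg]
    intro h
    apply hσ
    have h1 := ex_inj h
    ext i
    have h2 := congrFun h1 i
    have h3 := al2_dl_inj h2
    rw [h3]; rfl
  · intro h
    exact absurd (mem_univ _) h

theorem al2_lex (σ : Equiv.Perm (Fin k)) : toLex (ex (dl k ∘ σ)) ≤ toLex (ex (dl k)) := by
  by_cases h : ∀ i, σ i = i
  · have : (dl k ∘ σ) = dl k := by
      funext i; simp [h i]
    rw [this]
  · push Not at h
    have hne : (univ.filter (fun i => σ i ≠ i)).Nonempty := by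
      obtain ⟨i, hi⟩ := h
      exact ⟨i, mem_filter.2 ⟨mem_univ _, hi⟩⟩
    obtain ⟨i, hi, hmin⟩ := exists_min_image _ (fun i : Fin k => i) hne
    rw [mem_filter] at hi
    have hlt : ∀ j, j < i → σ j = j := by
      intro j hj
      by_contra hc
      exact absurd (hmin j (mem_filter.2 ⟨mem_univ _, hc⟩)) (not_le.2 hj)
    have hgt : i < σ i := by
      rcases lt_trichotomy i (σ i) with h1 | h1 | h1
      · exact h1
      · exact absurd h1.symm hi.2
      · exfalso
        have h2 := hlt (σ i) h1
        exact hi.2 (σ.injective h2)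
    apply le_of_lt
    rw [Finsupp.Lex.lt_iff]
    refine ⟨i, ?_, ?_⟩
    · intro j hj
      rw [ofLex_toLex, ofLex_toLex, ex_apply, ex_apply]
      simp [hlt j hj]
    · rw [ofLex_toLex, ofLex_toLex, ex_apply, ex_apply]
      simp only [Function.comp_apply]
      unfold dl
      have h1 : i.val < (σ i).val := hgt
      have h2 := (σ i).isLt
      omega

theorem al2_two (f : MvPolynomial (Fin k) S) (hf : Dl k S * f = 0) : f = 0 := by
  by_contra hne
  have h1 : (MonomialOrder.lex : MonomialOrder (Fin k)).toSyn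
      ((MonomialOrder.lex : MonomialOrder (Fin k)).degree (Dl k S)) ≤
      (MonomialOrder.lex : MonomialOrder (Fin k)).toSyn (ex (dl k)) := by
    rw [MonomialOrder.degree_le_iff]
    intro c hc
    rw [MonomialOrder.lex_le_iff]
    rw [mem_support_iff] at hc
    unfold Dl altp at hc
    rw [coeff_sum] at hc
    obtain ⟨σ, _, hσ⟩ := exists_ne_zero_of_sum_ne_zero hc
    rw [coeff_monomial] at hσ
    by_cases h : ex (dl k ∘ σ) = c
    · rw [← h]; exact al2_lex σ
    · rw [if_neg h] at hσ; exact absurd rfl hσ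
  have h2 := MonomialOrder.coeff_mul_of_add_of_degree_le
    (m := (MonomialOrder.lex : MonomialOrder (Fin k))) (f := Dl k S) (g := f) h1 le_rfl
  rw [hf, coeff_zero, al2_coeff, one_mul] at h2
  exact (MonomialOrder.leadingCoeff_ne_zero_iff.2 hne) h2.symm

theorem st_AL2 : ST_AL2 := by
  intro k S _
  exact ⟨fun f hf => al2_one hf, al2_two⟩

end Pool.Agent.Helper27.HL
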