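import Pool.Agent.Helper7.HL.Stmts

/-!
Row IDA of the project HL: identification of a polynomial by triangularity and orthogonality to the
lower monomial symmetric polynomials, for a generic scalar product.
-/

namespace Pool.Agent.Helper27.HL

open Finset MvPolynomial
open Pool.Agent.Helper7.HL Pool.Agent.Helper32.HG

variable {n : ℕ} {K : Type} [Field K] [CharZero K]

omit [CharZero K] in
theorem ida_symm (h : MvPolynomial (Fin n) K) : (Psi n K h).IsSymmetric := by
  intro σ
  have h1 : (rename σ : MvPolynomial (Fin n) K →ₐ[K] _).comp (Psi n K) = Psi n K := by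
    apply MvPolynomial.algHom_ext
    intro i
    rw [AlgHom.comp_apply]
    unfold Psi
    rw [aeval_X, map_sum]
    simp only [map_pow, rename_X]
    exact Equiv.sum_comp σ (fun v => (X v : MvPolynomial (Fin n) K) ^ (i.val + 1))
  exact DFunLike.congr_fun h1 h

omit [CharZero K] in
theorem ida_homog {h : MvPolynomial (Fin n) K} (hh : WtN n h) : (Psi n K h).IsHomogeneous n := by
  rw [h.as_sum, map_sum]
  apply IsHomogeneous.sum
  intro d hd
  rw [mem_support_iff] at hd
  have hw := hh d hd
  unfold Psi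
  rw [aeval_monomial, MvPolynomial.algebraMap_eq, Finsupp.prod_fintype _ _ (fun i => pow_zero _)]
  have h1 : (∏ i : Fin n, (∑ v : Fin n, (X v : MvPolynomial (Fin n) K) ^ (i.val + 1)) ^ d i).IsHomogeneous
      (∑ i : Fin n, (i.val + 1) * d i) := by
    apply IsHomogeneous.prod
    intro i _
    apply IsHomogeneous.pow
    apply IsHomogeneous.sum
    intro v _
    exact isHomogeneous_X_pow v _
  have h2 := (isHomogeneous_C (Fin n) (coeff d h)).mul h1
  rw [zero_add] at h2
  unfold wtd at hw
  rw [hw] at h2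
  exact h2

omit [CharZero K] in
theorem ida_symH {h : MvPolynomial (Fin n) K} (hh : WtN n h) : SymH n (Psi n K h) := by
  refine ⟨ida_symm h, ?_⟩
  intro e he
  have h1 := ida_homog hh he
  rw [Finsupp.weight_apply, Finsupp.sum_fintype _ _ (by intro i; simp)] at h1
  simpa [ex_apply] using h1

theorem st_IDA : ST_IDA := by
  intro K _ _ n q t hqt P hP lam hlam f c u' hf hf2 hf3
  classical
  have hω : ∀ j : ℕ, 0 < j → om q t j ≠ 0 := by
    intro j hj
    unfold om
    have h1 := hqt j 0 (by omega)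
    have h2 := hqt 0 j (by omega)
    rw [pow_zero, mul_one] at h1
    rw [pow_zero, one_mul] at h2
    exact div_ne_zero h2 h1
  have hg0 : ∀ ν : Fin n → ℕ, ∃ g : MvPolynomial (Fin n) K, ν ∈ parts n →
      WtN n g ∧ Psi n K g = msym n K ν := by
    intro ν
    by_cases h : ν ∈ parts n
    · obtain ⟨g, hg⟩ := lift_exists (symH_msym (K := K) h)
      exact ⟨g, fun _ => hg⟩
    · exact ⟨0, fun h' => absurd h' h⟩
  choose g hg using hg0
  have hu0 : ∀ κ : Fin n → ℕ, ∃ u : (Fin n → ℕ) → K, κ ∈ parts n →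
      P κ = msym n K κ + ∑ ν ∈ below n κ, u ν • msym n K ν := by
    intro κ
    by_cases h : κ ∈ parts n
    · obtain ⟨u, hu⟩ := hP.tri κ h
      exact ⟨u, fun _ => hu⟩
    · exact ⟨0, fun h' => absurd h' h⟩
  choose u hu using hu0
  set p : (Fin n → ℕ) → MvPolynomial (Fin n) K :=
    fun κ => g κ + ∑ ν ∈ below n κ, u κ ν • g ν with hp
  have hpw : ∀ κ ∈ parts n, WtN n (p κ) := by
    intro κ hκ
    apply (hg κ hκ).1.add
    apply WtN.sum
    intro ν hν
    exact ((hg ν (mem_below.1 hν).1).1).smul _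
  have hpP : ∀ κ ∈ parts n, Psi n K (p κ) = P κ := by
    intro κ hκ
    simp only [hp]
    rw [map_add, map_sum, hu κ hκ, (hg κ hκ).2]
    congr 1
    apply sum_congr rfl
    intro ν hν
    rw [map_smul, (hg ν (mem_below.1 hν).1).2]
  set ω := om q t with hωdef
  have horth : ∀ κ ∈ parts n, ∀ μ ∈ parts n, κ ≠ μ → Bf ω (p κ) (p μ) = 0 := by
    intro κ hκ μ hμ hne
    exact hP.bf hκ hμ hne (hpw κ hκ) (hpw μ hμ) (hpP κ hκ) (hpP μ hμ)
  have hexp : ∀ κ ν : Fin n → ℕ, Bf ω (p κ) (p ν) = Bf ω (p κ) (g ν) +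
      ∑ μ ∈ below n ν, u ν μ * Bf ω (p κ) (g μ) := by
    intro κ ν
    have : p ν = g ν + ∑ μ ∈ below n ν, u ν μ • g μ := rfl
    rw [this, bf_add_right, bf_sum_right]
    congr 1
    apply sum_congr rfl
    intro μ _
    rw [bf_smul_right]
  -- step D
  have hD : ∀ N : ℕ, ∀ ν ∈ parts n, stat ν < N → ∀ κ ∈ parts n, ¬ DomLe κ ν →
      Bf ω (p κ) (g ν) = 0 := by
    intro N
    induction N with
    | zero => intro ν _ h; omega
    | succ N ih =>
      intro ν hν hst κ hκ hdom
      have h1 := horth κ hκ ν hν (by rintro rfl; exact hdom (DomLe.refl _))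
      rw [hexp] at h1
      have h2 : ∑ μ ∈ below n ν, u ν μ * Bf ω (p κ) (g μ) = 0 := by
        apply sum_eq_zero
        intro μ hμ
        rw [mem_below] at hμ
        rw [ih μ hμ.1 (by have := stat_lt hμ.2.1 hμ.2.2; omega) κ hκ
          (fun h => hdom (h.trans hμ.2.1)), mul_zero]
      rw [h2, add_zero] at h1
      exact h1
  have hD' : ∀ ν ∈ parts n, ∀ κ ∈ parts n, ¬ DomLe κ ν → Bf ω (p κ) (g ν) = 0 :=
    fun ν hν κ hκ h => hD (stat ν + 1) ν hν (by omega) κ hκ h
  -- step E
  have hE : ∀ κ ∈ parts n, Bf ω (p κ) (g κ) = Bf ω (p κ) (p κ) := by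
    intro κ hκ
    rw [hexp κ κ]
    have h2 : ∑ μ ∈ below n κ, u κ μ * Bf ω (p κ) (g μ) = 0 := by
      apply sum_eq_zero
      intro μ hμ
      rw [mem_below] at hμ
      rw [hD' μ hμ.1 κ hκ (fun h => hμ.2.2 (DomLe.antisymm hμ.2.1 h)), mul_zero]
    rw [h2, add_zero]
  -- expansion of a polynomial of weight n
  have hspan : ∀ h : MvPolynomial (Fin n) K, WtN n h →
      h = ∑ ν ∈ parts n, coeff (ex ν) (Psi n K h) • g ν := by
    intro h hh
    have h0 := ida_symH hh
    have h1 := sym_expand h0.1 h0.2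
    set E := ∑ ν ∈ parts n, coeff (ex ν) (Psi n K h) • g ν with hEd
    have hEw : WtN n E := by
      apply WtN.sum
      intro ν hν
      exact ((hg ν hν).1).smul _
    have hEp : Psi n K E = Psi n K h := by
      rw [hEd, map_sum]
      conv_rhs => rw [h1]
      apply sum_congr rfl
      intro ν hν
      rw [map_smul, (hg ν hν).2]
    have k1 : WtN n (h + (-1 : K) • E) := hh.add (hEw.smul _)
    have k2 : Psi n K (h + (-1 : K) • E) = 0 := by
      rw [map_add, map_smul, hEp]
      simp
    have k3 := Psi_inj k1 k2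
    rw [neg_smul, one_smul, ← sub_eq_add_neg, sub_eq_zero] at k3
    exact k3
  -- step F
  have hF : ∀ κ ∈ parts n, Bf ω (p κ) (p κ) ≠ 0 := by
    intro κ hκ hzero
    have hall : ∀ N : ℕ, ∀ ν ∈ parts n, stat ν < N → Bf ω (p κ) (g ν) = 0 := by
      intro N
      induction N with
      | zero => intro ν _ h; omega
      | succ N ih =>
        intro ν hν hst
        have h1 : Bf ω (p κ) (p ν) = 0 := by
          by_cases h : κ = ν
          · rw [← h]; exact hzero
          · exact horth κ hκ ν hν h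
        rw [hexp] at h1
        have h2 : ∑ μ ∈ below n ν, u ν μ * Bf ω (p κ) (g μ) = 0 := by
          apply sum_eq_zero
          intro μ hμ
          rw [mem_below] at hμ
          rw [ih μ hμ.1 (by have := stat_lt hμ.2.1 hμ.2.2; omega), mul_zero]
        rw [h2, add_zero] at h1
        exact h1
    have hBall : ∀ h : MvPolynomial (Fin n) K, WtN n h → Bf ω (p κ) h = 0 := by
      intro h hh
      rw [hspan h hh, bf_sum_right]
      apply sum_eq_zero
      intro ν hν
      rw [bf_smul_right, hall (stat ν + 1) ν hν (by omega), mul_zero]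
    have hp0 : p κ = 0 := by
      ext d
      rw [coeff_zero]
      by_contra hd
      have hwd := hpw κ hκ d hd
      have h1 := hBall (monomial d 1) (by
        intro d' hd'
        rw [coeff_monomial] at hd'
        by_cases h : d = d'
        · rw [← h]; exact hwd
        · rw [if_neg h] at hd'; exact absurd rfl hd')
      unfold Bf at h1
      rw [sum_eq_single d] at h1
      · rw [coeff_monomial, if_pos rfl, mul_one] at h1
        exact (mul_ne_zero hd (wgt_ne hω d)) h1
      · intro d' _ hne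
        rw [coeff_monomial, if_neg (Ne.symm hne), mul_zero, zero_mul]
      · intro h
        rw [notMem_support_iff] at h
        exact absurd h hd
    have h1 := hpP κ hκ
    rw [hp0, map_zero, hu κ hκ] at h1
    have h2 := congrArg (coeff (ex κ)) h1
    rw [coeff_zero, coeff_add, coeff_sum, coeff_msym,
      if_pos ⟨(1 : Equiv.Perm (Fin n)), rfl⟩] at h2
    have h3 : ∑ ν ∈ below n κ, coeff (ex κ) (u κ ν • msym n K ν) = 0 := by
      apply sum_eq_zero
      intro ν hν
      rw [mem_below] at hν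
      rw [coeff_smul, coeff_msym, if_neg, smul_zero]
      rintro ⟨σ, hσ⟩
      exact hν.2.2 (sort_unique ((mem_parts κ).1 hκ).1 ((mem_parts ν).1 hν.1).1 hσ).symm
    rw [h3, add_zero] at h2
    exact one_ne_zero h2.symm
  -- step G
  set D := f + (-c) • p lam with hDd
  have hDw : WtN n D := hf.add ((hpw lam hlam).smul _)
  set w : (Fin n → ℕ) → K := fun ν => u' ν - c * u lam ν with hw
  have hDpsi : Psi n K D = ∑ ν ∈ below n lam, w ν • msym n K ν := by
    rw [hDd, map_add, map_smul, hf2, hpP lam hlam, hu lam hlam, smul_add, smul_sum]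
    have : ∑ ν ∈ below n lam, w ν • msym n K ν =
        ∑ ν ∈ below n lam, u' ν • msym n K ν +
          ∑ ν ∈ below n lam, (-c) • u lam ν • msym n K ν := by
      rw [← sum_add_distrib]
      apply sum_congr rfl
      intro ν _
      simp only [hw]
      rw [sub_smul, smul_smul, neg_mul, neg_smul, sub_eq_add_neg]
    rw [this, neg_smul]
    abel
  have hDE : D = ∑ ν ∈ below n lam, w ν • g ν := by
    set E := ∑ ν ∈ below n lam, w ν • g ν with hEd
    have hEw : WtN n E := by
      apply WtN.sum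
      intro ν hν
      exact ((hg ν (mem_below.1 hν).1).1).smul _
    have hEp : Psi n K E = Psi n K D := by
      rw [hEd, map_sum, hDpsi]
      apply sum_congr rfl
      intro ν hν
      rw [map_smul, (hg ν (mem_below.1 hν).1).2]
    have k1 : WtN n (D + (-1 : K) • E) := hDw.add (hEw.smul _)
    have k2 : Psi n K (D + (-1 : K) • E) = 0 := by
      rw [map_add, map_smul, hEp]
      simp
    have k3 := Psi_inj k1 k2
    rw [neg_smul, one_smul, ← sub_eq_add_neg, sub_eq_zero] at k3
    exact k3
  -- step H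
  have hgD : ∀ ν ∈ below n lam, Bf ω (g ν) D = 0 := by
    intro ν hν
    have hν' := mem_below.1 hν
    rw [hDd, bf_add_right, bf_smul_right, hf3 ν hν (g ν) (hg ν hν'.1).1 (hg ν hν'.1).2,
      bf_symm ω (g ν) (p lam), hD' ν hν'.1 lam hlam
        (fun h => hν'.2.2 (DomLe.antisymm hν'.2.1 h))]
    ring
  have hpD : ∀ κ ∈ below n lam, Bf ω (p κ) D = 0 := by
    intro κ hκ
    have hκ' := mem_below.1 hκ
    have : p κ = g κ + ∑ μ ∈ below n κ, u κ μ • g μ := rfl
    rw [this, bf_add_left, bf_sum_left, hgD κ hκ, zero_add]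
    apply sum_eq_zero
    intro μ hμ
    have hμ' := mem_below.1 hμ
    rw [bf_smul_left, hgD μ, mul_zero]
    rw [mem_below]
    refine ⟨hμ'.1, hμ'.2.1.trans hκ'.2.1, ?_⟩
    rintro rfl
    exact hκ'.2.2 (DomLe.antisymm hκ'.2.1 hμ'.2.1)
  -- step I
  have hw0 : ∀ ν ∈ below n lam, w ν = 0 := by
    by_contra hcon
    push Not at hcon
    obtain ⟨ν0, hν0, hw0⟩ := hcon
    have hne : ((below n lam).filter (fun ν => w ν ≠ 0)).Nonempty :=
      ⟨ν0, mem_filter.2 ⟨hν0, hw0⟩⟩
    obtain ⟨κ, hκ, hmax⟩ := exists_max_image _ stat hne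
    rw [mem_filter] at hκ
    have hκ' := mem_below.1 hκ.1
    have h1 := hpD κ hκ.1
    rw [hDE, bf_sum_right, sum_eq_single κ] at h1
    · rw [bf_smul_right, hE κ hκ'.1] at h1
      exact (mul_ne_zero hκ.2 (hF κ hκ'.1)) h1
    · intro ν hν hne
      rw [bf_smul_right]
      by_cases h : w ν = 0
      · rw [h, zero_mul]
      · have h2 := hmax ν (mem_filter.2 ⟨hν, h⟩)
        rw [hD' ν (mem_below.1 hν).1 κ hκ'.1, mul_zero]
        intro h3
        have := stat_lt h3 (Ne.symm hne)
        omega
    · intro h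
      exact absurd hκ.1 h
  have hD0 : D = 0 := by
    rw [hDE]
    apply sum_eq_zero
    intro ν hν
    rw [hw0 ν hν, zero_smul]
  have h1 : Psi n K D = 0 := by rw [hD0, map_zero]
  rw [hDd, map_add, map_smul, hpP lam hlam, neg_smul, ← sub_eq_add_neg, sub_eq_zero] at h1
  exact h1

end Pool.Agent.Helper27.HL
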