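import Pool.Agent.Helper7.HL.Stmts

/-!
Row MP of the project HL: everything commutes with ring homomorphisms.
-/

namespace Pool.Agent.Helper27.HL

open Finset MvPolynomial
open Pool.Agent.Helper7.HL Pool.Agent.Helper32.HG

variable {R R' : Type} [CommRing R] [CommRing R'] (φ : R →+* R')

theorem map_hh (m : ℕ) : MvPolynomial.map φ (hh R m) = hh R' m := by
  unfold hh
  split_ifs
  · simp
  · simp

theorem map_Hs : PowerSeries.map (MvPolynomial.map φ) (Hs R) = Hs R' := by
  ext m : 1
  rw [PowerSeries.coeff_map]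
  unfold Hs
  rw [PowerSeries.coeff_mk, PowerSeries.coeff_mk, map_hh]

theorem Hs_mul_SE (R : Type) [CommRing R] : Hs R * SE R = 1 := by
  unfold SE
  apply PowerSeries.mul_invOfUnit
  unfold Hs
  rw [← PowerSeries.coeff_zero_eq_constantCoeff_apply, PowerSeries.coeff_mk]
  simp [hh]

theorem map_SE : PowerSeries.map (MvPolynomial.map φ) (SE R) = SE R' := by
  have h1 : PowerSeries.map (MvPolynomial.map φ) (SE R) * Hs R' = 1 := by
    rw [← map_Hs φ, ← map_mul, mul_comm, Hs_mul_SE, map_one]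
  exact left_inv_eq_right_inv h1 (Hs_mul_SE R')

theorem map_se (a : ℕ) : MvPolynomial.map φ (se R a) = se R' a := by
  unfold se
  rw [← map_SE φ, PowerSeries.coeff_map]

theorem map_sbt {A A' : Type} [CommRing A] [CommRing A'] [Algebra R A] [Algebra R' A']
    (ψ : A →+* A') (h : ψ.comp (algebraMap R A) = (algebraMap R' A').comp φ) (F : PowerSeries A)
    (f : Sy R) :
    ψ (sbt R F f) = sbt R' (PowerSeries.map ψ F) (MvPolynomial.map φ f) := by
  unfold sbt
  rw [MvPolynomial.aeval_def, MvPolynomial.aeval_def, MvPolynomial.eval₂_comp_left,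
    MvPolynomial.eval₂_map, h]
  congr 1

theorem map_rescale {A A' : Type} [CommRing A] [CommRing A'] (ψ : A →+* A') (a : A)
    (F : PowerSeries A) : PowerSeries.map ψ (PowerSeries.rescale a F) =
      PowerSeries.rescale (ψ a) (PowerSeries.map ψ F) := by
  ext m
  rw [PowerSeries.coeff_map, PowerSeries.coeff_rescale, PowerSeries.coeff_rescale,
    PowerSeries.coeff_map, map_mul, map_pow]

theorem map_ptm (t : R) (f : Sy R) :
    MvPolynomial.map φ (ptm t f) = ptm (φ t) (MvPolynomial.map φ f) := by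
  unfold ptm
  rw [map_sbt φ (MvPolynomial.map φ)]
  · rw [map_mul, map_Hs, map_rescale, map_SE, MvPolynomial.map_C]
  · ext r : 1
    simp [MvPolynomial.algebraMap_eq]

theorem map_ev (N : ℕ) (f : Sy R) :
    MvPolynomial.map φ (ev R N f) = ev R' N (MvPolynomial.map φ f) := by
  unfold ev
  rw [map_sbt φ (MvPolynomial.map φ)]
  · congr 2
    ext m : 1
    rw [PowerSeries.coeff_map, PowerSeries.coeff_mk, PowerSeries.coeff_mk, hk_map]
  · ext r : 1
    simp [MvPolynomial.algebraMap_eq]

theorem map_chi (q : R) (k : ℕ) :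
    PowerSeries.map (MvPolynomial.map (MvPolynomial.map φ)) (chi q k) = chi (φ q) k := by
  unfold chi
  rw [map_mul, map_prod]
  congr 1
  · ext m : 1
    rw [PowerSeries.coeff_map, PowerSeries.coeff_mk, PowerSeries.coeff_mk, hk_map]
  · apply prod_congr rfl
    intro i _
    rw [map_sub, map_one, map_mul, PowerSeries.map_C, PowerSeries.map_X, map_mul,
      MvPolynomial.map_C, MvPolynomial.map_X, MvPolynomial.map_C]

theorem map_shf (q : R) (k : ℕ) (f : Sy R) :
    MvPolynomial.map (MvPolynomial.map φ) (shf q k f) = shf (φ q) k (MvPolynomial.map φ f) := by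
  unfold shf
  rw [map_sbt φ (MvPolynomial.map (MvPolynomial.map φ))]
  · congr 2
    rw [map_mul, map_chi]
    congr 1
    rw [← map_Hs φ]
    ext m : 1
    simp only [PowerSeries.coeff_map, MvPolynomial.map_C]
  · ext r : 1
    simp only [RingHom.comp_apply, MvPolynomial.algebraMap_apply, Algebra.algebraMap_self,
      RingHom.id_apply, MvPolynomial.map_C]

theorem map_altp {A A' : Type} [CommRing A] [CommRing A'] (ψ : A →+* A') (k : ℕ)
    (l : Fin k → ℕ) : MvPolynomial.map ψ (altp k A l) = altp k A' l := by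
  unfold altp
  rw [map_sum]
  apply sum_congr rfl
  intro σ _
  rw [MvPolynomial.map_monomial, map_intCast]

theorem map_Dl {A A' : Type} [CommRing A] [CommRing A'] (ψ : A →+* A') (k : ℕ) :
    MvPolynomial.map ψ (Dl k A) = Dl k A' := map_altp ψ k _

theorem sum_support_map {A A' : Type} [CommRing A] [CommRing A'] (ψ : A →+* A') {k : ℕ}
    {B : Type} [AddCommMonoid B] (p : MvPolynomial (Fin k) A) (F : (Fin k →₀ ℕ) → A' → B)
    (hF : ∀ l, F l 0 = 0) :
    ∑ l ∈ p.support, F l (ψ (coeff l p)) =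
      ∑ l ∈ (MvPolynomial.map ψ p).support, F l (coeff l (MvPolynomial.map ψ p)) := by
  symm
  have h1 : ∀ l, F l (ψ (coeff l p)) = F l (coeff l (MvPolynomial.map ψ p)) := by
    intro l; rw [coeff_map]
  simp_rw [h1]
  apply sum_subset (support_map_subset ψ p)
  intro l _ hl
  rw [notMem_support_iff.mp hl, hF]

theorem map_Lf {A A' : Type} [CommRing A] [CommRing A'] (ψ : A →+* A') {k : ℕ}
    (f : Fin k → ℕ → A) (g : Fin k → ℕ → A') (hfg : ∀ j l, ψ (f j l) = g j l)
    (p : MvPolynomial (Fin k) A) : ψ (Lf f p) = Lf g (MvPolynomial.map ψ p) := by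
  unfold Lf
  rw [map_sum]
  have h1 : ∀ l ∈ p.support, ψ (coeff l p * ∏ j, f j (l j)) = ψ (coeff l p) * ∏ j, g j (l j) := by
    intro l _
    rw [map_mul, map_prod]
    simp_rw [hfg]
  rw [sum_congr rfl h1]
  exact sum_support_map ψ p (fun l a => a * ∏ j, g j (l j)) (fun l => zero_mul _)

theorem map_bs (t : R) (k : ℕ) (j : Fin k) (l : ℕ) :
    MvPolynomial.map φ (bs t k j l) = bs (φ t) k j l := by
  unfold bs
  split_ifs
  · rw [map_zero]
  · rw [map_sub, map_one, map_mul, map_pow, MvPolynomial.map_C, map_se]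
  · rw [map_sub, map_zero, map_mul, map_pow, MvPolynomial.map_C, map_se]

theorem map_Bop (q t : R) (k : ℕ) (f : Sy R) :
    MvPolynomial.map φ (Bop q t k f) = Bop (φ q) (φ t) k (MvPolynomial.map φ f) := by
  unfold Bop
  rw [map_Lf (MvPolynomial.map φ) (bs t k) (bs (φ t) k) (map_bs φ t k), map_mul, map_Dl, map_shf]

theorem map_Hc (q t : R) (cs : List ℕ) :
    MvPolynomial.map φ (Hc q t cs) = Hc (φ q) (φ t) cs := by
  induction cs with
  | nil => simp [Hc]
  | cons k cs ih => rw [Hc, Hc, map_Bop, ih]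

theorem map_fJ (q t : R) (N : ℕ) (cs : List ℕ) :
    MvPolynomial.map φ (fJ q t N cs) = fJ (φ q) (φ t) N cs := by
  unfold fJ
  rw [map_ev, map_ptm, map_Hc]

theorem map_Dop (q t v : R) (N : ℕ) (f : MvPolynomial (Fin N) R) :
    MvPolynomial.map φ (Dop q t v N f) = Dop (φ q) (φ t) (φ v) N (MvPolynomial.map φ f) := by
  unfold Dop
  rw [map_sum]
  have h1 : ∀ γ ∈ f.support, MvPolynomial.map φ (C (coeff γ f *
      ∏ i, (1 - v * q ^ (γ i) * t ^ (dl N i))) * altp N R (fun i => γ i + dl N i)) =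
      C (φ (coeff γ f) * ∏ i, (1 - φ v * φ q ^ (γ i) * φ t ^ (dl N i))) *
        altp N R' (fun i => γ i + dl N i) := by
    intro γ _
    rw [map_mul, map_altp, MvPolynomial.map_C, map_mul, map_prod]
    simp only [map_sub, map_one, map_mul, map_pow]
  rw [sum_congr rfl h1]
  exact sum_support_map φ f (fun γ a => C (a * ∏ i, (1 - φ v * φ q ^ (γ i) * φ t ^ (dl N i))) *
        altp N R' (fun i => γ i + dl N i)) (fun γ => by simp)

theorem map_scf (N : ℕ) (μ : Fin N → ℕ) (f : MvPolynomial (Fin N) R) :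
    φ (scf N μ f) = scf N μ (MvPolynomial.map φ f) := by
  unfold scf
  rw [← map_Dl φ N, ← map_mul, coeff_map]

theorem map_clf (q t : R) (cs : List ℕ) : φ (clf q t cs) = clf (φ q) (φ t) cs := by
  induction cs with
  | nil => simp [clf]
  | cons k cs ih =>
    rw [clf, clf, map_mul, map_prod, ih]
    simp only [map_sub, map_one, map_mul, map_pow]

theorem st_MP : ST_MP := by
  intro R R' _ _ φ
  exact ⟨map_Hc φ, map_fJ φ, map_Dop φ, map_Dl φ, map_scf φ, map_clf φ⟩

end Pool.Agent.Helper27.HL
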